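import Pool.Agent.H472R2.Rat

/-! The four exponentials conjecture for rational numbers holds for all `2 × 2` matrices of
logarithms of rational numbers which are close to `1` relative to their height and of comparable
height. -/

set_option autoImplicit false
set_option maxHeartbeats 1000000

open Pool.Agent.H472R2

namespace Pool.Agent.Results.MP_bbc1fa_nt.NearOne

lemma dep_of_rel {v w : Fin 2 → ℝ} (s : ℚ) (h : v = fun i => (s : ℝ) * w i) :
    ¬ LinearIndependent ℚ (![v, w] : Fin 2 → Fin 2 → ℝ) := by
  intro hli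
  have h1 := Fintype.linearIndependent_iff.mp hli ![1, -s] (by
    simp only [Fin.sum_univ_two, Matrix.cons_val_zero, Matrix.cons_val_one]
    funext i
    simp only [Pi.add_apply, Pi.smul_apply, h, Pi.zero_apply, Rat.smul_def]
    push_cast
    ring) 0
  simp at h1

lemma not_li_of_rel {f : Fin 2 → Fin 2 → ℝ} (s : ℚ) (h : ∀ i, f 0 i = (s : ℝ) * f 1 i) :
    ¬ LinearIndependent ℚ f := by
  have : f = ![f 0, f 1] := by
    funext i
    fin_cases i <;> rfl
  rw [this]
  exact dep_of_rel s (funext h)

lemma not_li_of_zero {f : Fin 2 → Fin 2 → ℝ} (k : Fin 2) (h : ∀ i, f k i = 0) :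
    ¬ LinearIndependent ℚ f := by
  intro hli
  exact hli.ne_zero k (funext h)

/-- The four exponentials conjecture for positive rationals `a_ij = p_ij / q_ij` with
`|p_ij - q_ij| ≤ B` and `H ≤ q_ij ≤ B H`, as soon as `H ≥ B ^ D`, for an absolute constant `D`. -/
theorem result : ∃ D : ℕ, ∀ (B H : ℕ) (a : Matrix (Fin 2) (Fin 2) ℚ), 2 ≤ B → B ^ D ≤ H →
    (∀ i j, 0 < a i j) →
    (∀ i j, |(a i j).num - (a i j).den| ≤ B ∧ H ≤ (a i j).den ∧ (a i j).den ≤ B * H) →
    LinearIndependent ℚ (fun i : Fin 2 => fun j : Fin 2 => Real.log (a i j)) →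
    LinearIndependent ℚ (fun j : Fin 2 => fun i : Fin 2 => Real.log (a i j)) →
    (Matrix.of fun i j : Fin 2 => Real.log (a i j)).det ≠ 0 := by
  obtain ⟨D, hD⟩ := near_one_rat
  refine ⟨D, fun B H a hB hH hpos hreg hrow hcol hdet => ?_⟩
  rw [Matrix.det_fin_two] at hdet
  simp only [Matrix.of_apply] at hdet
  by_cases hz : ∃ i j, Real.log (a i j) = 0
  · -- degenerate case: a zero entry
    have h00 : Real.log (a 0 0) * Real.log (a 1 1) = Real.log (a 0 1) * Real.log (a 1 0) := by
      linarith
    have key : (∃ i, ∀ j, Real.log (a i j) = 0) ∨ (∃ j, ∀ i, Real.log (a i j) = 0) := by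
      obtain ⟨i, j, hij⟩ := hz
      fin_cases i <;> fin_cases j <;> simp only [Fin.zero_eta, Fin.mk_one, Fin.isValue] at hij <;>
        rw [hij] at h00
      · rw [zero_mul] at h00
        rcases mul_eq_zero.mp h00.symm with h | h
        · left; exact ⟨0, fun j => by fin_cases j <;> assumption⟩
        · right; exact ⟨0, fun j => by fin_cases j <;> assumption⟩
      · rw [zero_mul] at h00
        rcases mul_eq_zero.mp h00 with h | h
        · left; exact ⟨0, fun j => by fin_cases j <;> assumption⟩
        · right; exact ⟨1, fun j => by fin_cases j <;> assumption⟩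
      · rw [mul_zero] at h00
        rcases mul_eq_zero.mp h00 with h | h
        · right; exact ⟨0, fun j => by fin_cases j <;> assumption⟩
        · left; exact ⟨1, fun j => by fin_cases j <;> assumption⟩
      · rw [mul_zero] at h00
        rcases mul_eq_zero.mp h00.symm with h | h
        · right; exact ⟨1, fun j => by fin_cases j <;> assumption⟩
        · left; exact ⟨1, fun j => by fin_cases j <;> assumption⟩
    rcases key with ⟨i, hi⟩ | ⟨j, hj⟩
    · exact not_li_of_zero i hi hrow
    · exact not_li_of_zero j hj hcol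
  · push Not at hz
    set p : Fin 4 → ℕ := ![(a 0 0).num.toNat, (a 0 1).num.toNat, (a 1 0).num.toNat,
      (a 1 1).num.toNat] with hp
    set q : Fin 4 → ℕ := ![(a 0 0).den, (a 0 1).den, (a 1 0).den, (a 1 1).den] with hq
    have hnum : ∀ i j, ((a i j).num.toNat : ℤ) = (a i j).num := fun i j =>
      Int.toNat_of_nonneg (Rat.num_nonneg.mpr (hpos i j).le)
    have hnumR : ∀ i j, ((a i j).num.toNat : ℝ) = ((a i j).num : ℝ) := fun i j => by
      rw [← hnum i j]
      push_cast
      rw [hnum i j]
    have hval : ∀ i j, (((a i j).num.toNat : ℝ) / ((a i j).den : ℝ)) = ((a i j : ℚ) : ℝ) :=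
      fun i j => by
        rw [hnumR, Rat.cast_def]
    have hcond : ∀ i j, 0 < (a i j).num.toNat ∧ (a i j).num.toNat ≠ (a i j).den ∧
        |((a i j).num.toNat : ℤ) - (a i j).den| ≤ B ∧ H ≤ (a i j).den ∧
        (a i j).den ≤ B * H := fun i j => by
      refine ⟨?_, ?_, ?_, (hreg i j).2.1, (hreg i j).2.2⟩
      · have := Rat.num_pos.mpr (hpos i j)
        have := hnum i j
        omega
      · intro h
        apply hz i j
        have h1 := hval i j
        rw [h, div_self (by exact_mod_cast (a i j).den_nz)] at h1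
        rw [← h1, Real.log_one]
      · rw [hnum]; exact (hreg i j).1
    obtain ⟨e1, e2⟩ := hD B H p q hB hH (by
      intro j
      fin_cases j
      · exact hcond 0 0
      · exact hcond 0 1
      · exact hcond 1 0
      · exact hcond 1 1) (by
      change Real.log (((a 0 0).num.toNat : ℝ) / ((a 0 0).den : ℝ)) *
        Real.log (((a 1 1).num.toNat : ℝ) / ((a 1 1).den : ℝ)) =
        Real.log (((a 0 1).num.toNat : ℝ) / ((a 0 1).den : ℝ)) *
        Real.log (((a 1 0).num.toNat : ℝ) / ((a 1 0).den : ℝ))
      rw [hval, hval, hval, hval]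
      linarith)
    -- rewrite in terms of `a`
    have hu : ∀ i j, (((a i j).num.toNat : ℝ) - (a i j).den) / ((a i j).num.toNat + (a i j).den)
        = ((a i j : ℝ) - 1) / ((a i j : ℝ) + 1) := fun i j => by
      rw [← hval i j]
      have h1 : (0:ℝ) < ((a i j).den : ℝ) := by exact_mod_cast (a i j).den_pos
      have h2 : (0:ℝ) ≤ ((a i j).num.toNat : ℝ) := by positivity
      field_simp
    change (((a 0 0).num.toNat : ℝ) - (a 0 0).den) / ((a 0 0).num.toNat + (a 0 0).den) *
      ((((a 1 1).num.toNat : ℝ) - (a 1 1).den) / ((a 1 1).num.toNat + (a 1 1).den)) =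
      (((a 0 1).num.toNat : ℝ) - (a 0 1).den) / ((a 0 1).num.toNat + (a 0 1).den) *
      ((((a 1 0).num.toNat : ℝ) - (a 1 0).den) / ((a 1 0).num.toNat + (a 1 0).den)) at e1
    change ((((a 0 0).num.toNat : ℝ) - (a 0 0).den) / ((a 0 0).num.toNat + (a 0 0).den))^2 +
      ((((a 1 1).num.toNat : ℝ) - (a 1 1).den) / ((a 1 1).num.toNat + (a 1 1).den))^2 =
      ((((a 0 1).num.toNat : ℝ) - (a 0 1).den) / ((a 0 1).num.toNat + (a 0 1).den))^2 +
      ((((a 1 0).num.toNat : ℝ) - (a 1 0).den) / ((a 1 0).num.toNat + (a 1 0).den))^2 at e2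
    rw [hu, hu, hu, hu] at e1 e2
    set x : Fin 2 → Fin 2 → ℝ := fun i j => ((a i j : ℝ) - 1) / ((a i j : ℝ) + 1) with hx
    have hposR : ∀ i j, (0:ℝ) < (a i j : ℝ) := fun i j => by exact_mod_cast hpos i j
    have e1' : x 0 0 * x 1 1 = x 0 1 * x 1 0 := e1
    have e2' : x 0 0 ^ 2 + x 1 1 ^ 2 = x 0 1 ^ 2 + x 1 0 ^ 2 := e2
    have hx0 : ∀ i j, x i j ≠ 0 := fun i j h => by
      simp only [hx] at h
      rw [div_eq_zero_iff] at h
      have h1 := hposR i j
      rcases h with h | h
      · apply hz i j
        have : (a i j : ℝ) = 1 := by linarith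
        rw [this, Real.log_one]
      · linarith
    have heq : ∀ i j i' j', x i j = x i' j' → Real.log (a i j) = Real.log (a i' j') := by
      intro i j i' j' h
      congr 1
      simp only [hx] at h
      have h1 := hposR i j
      have h2 := hposR i' j'
      rw [div_eq_div_iff (by linarith) (by linarith)] at h
      linarith
    have hneg : ∀ i j i' j', x i j = - x i' j' → Real.log (a i j) = - Real.log (a i' j') := by
      intro i j i' j' h
      simp only [hx] at h
      have h1 := hposR i j
      have h2 := hposR i' j'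
      rw [← neg_div, div_eq_div_iff (by linarith) (by linarith)] at h
      have h3 : (a i j : ℝ) * (a i' j' : ℝ) = 1 := by linarith
      have h4 := Real.log_mul h1.ne' h2.ne'
      rw [h3, Real.log_one] at h4
      linarith
    have hprod : (x 0 0 ^ 2 - x 0 1 ^ 2) * (x 0 0 ^ 2 - x 1 0 ^ 2) = 0 := by
      have h3 : x 0 0 ^ 2 * x 1 1 ^ 2 = x 0 1 ^ 2 * x 1 0 ^ 2 := by
        rw [← mul_pow, e1', mul_pow]
      linear_combination (x 0 0 ^ 2) * e2' - h3
    rcases mul_eq_zero.mp hprod with h | h
    · -- columns dependent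
      rcases sq_eq_sq_iff_eq_or_eq_neg.mp (sub_eq_zero.mp h) with h1 | h1
      · have h2 : x 1 0 = x 1 1 := by
          have h3 : x 0 1 * (x 1 0 - x 1 1) = 0 := by linear_combination (x 1 1) * h1 - e1'
          have := (mul_eq_zero.mp h3).resolve_left (hx0 0 1)
          linarith
        refine not_li_of_rel (f := fun j : Fin 2 => fun i : Fin 2 => Real.log (a i j)) 1 ?_ hcol
        intro i
        fin_cases i
        · simpa using heq 0 0 0 1 h1
        · simpa using heq 1 0 1 1 h2
      · have h2 : x 1 0 = - x 1 1 := by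
          have h3 : x 0 1 * (x 1 0 + x 1 1) = 0 := by linear_combination (x 1 1) * h1 - e1'
          have := (mul_eq_zero.mp h3).resolve_left (hx0 0 1)
          linarith
        refine not_li_of_rel (f := fun j : Fin 2 => fun i : Fin 2 => Real.log (a i j)) (-1) ?_ hcol
        intro i
        fin_cases i
        · simpa using hneg 0 0 0 1 h1
        · simpa using hneg 1 0 1 1 h2
    · -- rows dependent
      rcases sq_eq_sq_iff_eq_or_eq_neg.mp (sub_eq_zero.mp h) with h1 | h1
      · have h2 : x 0 1 = x 1 1 := by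
          have h3 : x 1 0 * (x 0 1 - x 1 1) = 0 := by linear_combination (x 1 1) * h1 - e1'
          have := (mul_eq_zero.mp h3).resolve_left (hx0 1 0)
          linarith
        refine not_li_of_rel (f := fun i : Fin 2 => fun j : Fin 2 => Real.log (a i j)) 1 ?_ hrow
        intro j
        fin_cases j
        · simpa using heq 0 0 1 0 h1
        · simpa using heq 0 1 1 1 h2
      · have h2 : x 0 1 = - x 1 1 := by
          have h3 : x 1 0 * (x 0 1 + x 1 1) = 0 := by linear_combination (x 1 1) * h1 - e1'
          have := (mul_eq_zero.mp h3).resolve_left (hx0 1 0)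
          linarith
        refine not_li_of_rel (f := fun i : Fin 2 => fun j : Fin 2 => Real.log (a i j)) (-1) ?_ hrow
        intro j
        fin_cases j
        · simpa using hneg 0 0 1 0 h1
        · simpa using hneg 0 1 1 1 h2

end Pool.Agent.Results.MP_bbc1fa_nt.NearOne
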